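import Pool.Agent.H242.GX.Stm5

/-!
# Project GX (helper242), piece GX5-YEQ: the substitution `w = y ^ 6`
-/

set_option autoImplicit false

open Set Filter Topology
open scoped ContDiff
open Pool.Agent.H242.GX

namespace H787GX

theorem gx_YEQ : S_YEQ := by
  intro w δ M hδ hw hw0 hwpos hde
  have hd0 : ∀ t, HasDerivAt w (deriv w t) t := fun t =>
    ((hw.differentiable (by simp)) t).hasDerivAt
  have hw1 : ContDiff ℝ ∞ (deriv w) := (contDiff_infty_iff_deriv.1 hw).2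
  have hd1 : ∀ t, HasDerivAt (deriv w) (deriv (deriv w) t) t := fun t =>
    ((hw1.differentiable (by simp)) t).hasDerivAt
  have hw2 : ContDiff ℝ ∞ (deriv (deriv w)) := (contDiff_infty_iff_deriv.1 hw1).2
  have hd2 : ∀ t, HasDerivAt (deriv (deriv w)) (deriv (deriv (deriv w)) t) t := fun t =>
    ((hw2.differentiable (by simp)) t).hasDerivAt
  set w1 := deriv w with hw1def
  set w2 := deriv w1 with hw2def
  set w3 := deriv w2 with hw3def
  have hy : ∀ t : ℝ, 0 < t → t < δ → HasDerivAt (fun s => w s ^ (1 / 6 : ℝ))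
      (w t ^ (1 / 6 : ℝ) * (w1 t / w t) / 6) t := by
    intro t ht ht'
    have hp := hwpos t ht ht'
    have h := (hd0 t).rpow_const (p := (1 / 6 : ℝ)) (Or.inl hp.ne')
    have e : w1 t * (1 / 6 : ℝ) * w t ^ ((1 / 6 : ℝ) - 1) =
        w t ^ (1 / 6 : ℝ) * (w1 t / w t) / 6 := by
      rw [Real.rpow_sub_one hp.ne']
      field_simp
    rw [e] at h
    exact h
  have hu : ∀ t : ℝ, 0 < t → t < δ → HasDerivAt (fun s => w1 s / w s)
      (w2 t / w t - (w1 t / w t) ^ 2) t := by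
    intro t ht ht'
    have hp := hwpos t ht ht'
    have h := (hd1 t).div (hd0 t) hp.ne'
    have e : (w2 t * w t - w1 t * w1 t) / w t ^ 2 = w2 t / w t - (w1 t / w t) ^ 2 := by
      field_simp
    rw [e] at h
    exact h
  have hv : ∀ t : ℝ, 0 < t → t < δ → HasDerivAt (fun s => w2 s / w s)
      (w3 t / w t - (w2 t / w t) * (w1 t / w t)) t := by
    intro t ht ht'
    have hp := hwpos t ht ht'
    have h := (hd2 t).div (hd0 t) hp.ne'
    have e : (w3 t * w t - w2 t * w1 t) / w t ^ 2 =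
        w3 t / w t - (w2 t / w t) * (w1 t / w t) := by
      field_simp
    rw [e] at h
    exact h
  refine ⟨fun s => w s ^ (1 / 6 : ℝ), fun s => w s ^ (1 / 6 : ℝ) * (w1 s / w s) / 6,
    fun s => (w s ^ (1 / 6 : ℝ)) ^ 2 * (4 * (w1 s / w s) ^ 2 / 9 - (w2 s / w s) / 3),
    fun s => -((w s ^ (1 / 6 : ℝ)) ^ 2 *
      (9 * w s ^ 2 * w3 s - 30 * w s * w1 s * w2 s + 20 * w1 s ^ 3) / (27 * w s ^ 3)),
    4 * |M|, ?_, ?_⟩
  · refine ⟨hδ, by positivity, ?_, ?_, ?_, ?_, ?_, ?_⟩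
    · intro t ht ht'
      exact Real.rpow_pos_of_pos (hwpos t ht ht') _
    · intro t ht ht'
      exact hy t ht ht'
    · intro t ht ht'
      have hp := hwpos t ht ht'
      have hyp : 0 < w t ^ (1 / 6 : ℝ) := Real.rpow_pos_of_pos hp _
      have h := ((hy t ht ht').mul (hu t ht ht')).div_const 6
      have e : (w t ^ (1 / 6 : ℝ) * (w1 t / w t) / 6 * (w1 t / w t) +
          w t ^ (1 / 6 : ℝ) * (w2 t / w t - (w1 t / w t) ^ 2)) / 6 =
          (6 * (w t ^ (1 / 6 : ℝ) * (w1 t / w t) / 6) ^ 2 -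
            (w t ^ (1 / 6 : ℝ)) ^ 2 * (4 * (w1 t / w t) ^ 2 / 9 - w2 t / w t / 3)) /
            (2 * w t ^ (1 / 6 : ℝ)) := by
        generalize w t ^ (1 / 6 : ℝ) = y at hyp ⊢
        generalize w1 t / w t = u
        generalize w2 t / w t = v
        field_simp
        ring
      rw [← e]
      exact h
    · intro t ht ht'
      have hp := hwpos t ht ht'
      have hyp : 0 < w t ^ (1 / 6 : ℝ) := Real.rpow_pos_of_pos hp _
      have h := ((hy t ht ht').pow 2).mul
        (((((hu t ht ht').pow 2).const_mul 4).div_const 9).sub ((hv t ht ht').div_const 3))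
      refine HasDerivAt.congr_deriv (f := fun s => (w s ^ (1 / 6 : ℝ)) ^ 2 *
        (4 * (w1 s / w s) ^ 2 / 9 - (w2 s / w s) / 3)) h ?_
      simp only [Pi.pow_apply, Pi.sub_apply]
      generalize w t ^ (1 / 6 : ℝ) = y at hyp ⊢
      generalize w3 t = a3
      generalize w2 t = a2
      generalize w1 t = a1
      generalize w t = a0 at hp ⊢
      push_cast
      field_simp
      ring
    · intro t ht ht'
      have hp := hwpos t ht ht'
      have hyp : 0 < w t ^ (1 / 6 : ℝ) := Real.rpow_pos_of_pos hp _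
      have hD := hde t ht ht'
      change |-((w t ^ (1 / 6 : ℝ)) ^ 2 *
        (9 * w t ^ 2 * w3 t - 30 * w t * w1 t * w2 t + 20 * w1 t ^ 3) / (27 * w t ^ 3))| ≤
        4 * |M| * (|(w t ^ (1 / 6 : ℝ)) ^ 2 * (4 * (w1 t / w t) ^ 2 / 9 - (w2 t / w t) / 3)| +
          (w t ^ (1 / 6 : ℝ) * (w1 t / w t) / 6) ^ 2 + (w t ^ (1 / 6 : ℝ)) ^ 2)
      generalize w t ^ (1 / 6 : ℝ) = y at hyp ⊢
      change |9 * w t ^ 2 * w3 t - 30 * w t * w1 t * w2 t + 20 * w1 t ^ 3| ≤
        M * (|w t ^ 2 * w2 t| + |w t * w1 t ^ 2| + |w t ^ 2 * w1 t| + |w t ^ 3|) at hD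
      have hD' : |9 * w t ^ 2 * w3 t - 30 * w t * w1 t * w2 t + 20 * w1 t ^ 3| ≤
        |M| * (|w t ^ 2 * w2 t| + |w t * w1 t ^ 2| + |w t ^ 2 * w1 t| + |w t ^ 3|) :=
        hD.trans (mul_le_mul_of_nonneg_right (le_abs_self M) (by positivity))
      clear hD
      generalize 9 * w t ^ 2 * w3 t - 30 * w t * w1 t * w2 t + 20 * w1 t ^ 3 = E at hD' ⊢
      rw [abs_neg, abs_div, abs_mul, abs_of_pos (by positivity : 0 < y ^ 2),
        abs_of_pos (by positivity : 0 < 27 * w t ^ 3)]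
      rw [div_le_iff₀ (by positivity)]
      have hc : |w t ^ 2 * w2 t| + |w t * w1 t ^ 2| + |w t ^ 2 * w1 t| + |w t ^ 3| =
          w t ^ 3 * (|w2 t / w t| + (w1 t / w t) ^ 2 + |w1 t / w t| + 1) := by
        rw [abs_mul, abs_mul, abs_mul, abs_of_pos (by positivity : 0 < w t ^ 2), abs_of_pos hp,
          abs_of_pos (by positivity : 0 < w t ^ 3), abs_div, abs_div, abs_of_pos hp,
          abs_of_nonneg (sq_nonneg (w1 t))]
        field_simp
      rw [hc] at hD'
      generalize w2 t / w t = v at hD' ⊢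
      generalize w1 t / w t = u at hD' ⊢
      have hv3 : y ^ 2 * |v| ≤ 3 * |y ^ 2 * (4 * u ^ 2 / 9 - v / 3)| + 4 / 3 * (y ^ 2 * u ^ 2) := by
        rw [abs_mul, abs_of_pos (by positivity : 0 < y ^ 2)]
        have h1 : |v| ≤ 3 * |4 * u ^ 2 / 9 - v / 3| + 4 / 3 * u ^ 2 := by
          have h2 : v = -3 * (4 * u ^ 2 / 9 - v / 3) + 4 / 3 * u ^ 2 := by ring
          calc |v| = |-3 * (4 * u ^ 2 / 9 - v / 3) + 4 / 3 * u ^ 2| := by rw [← h2]
            _ ≤ |-3 * (4 * u ^ 2 / 9 - v / 3)| + |4 / 3 * u ^ 2| := abs_add_le _ _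
            _ = 3 * |4 * u ^ 2 / 9 - v / 3| + 4 / 3 * u ^ 2 := by
              rw [abs_mul, abs_neg, abs_of_pos (by norm_num : (0 : ℝ) < 3),
                abs_of_nonneg (by positivity : 0 ≤ 4 / 3 * u ^ 2)]
        have h3 := mul_le_mul_of_nonneg_left h1 (by positivity : 0 ≤ y ^ 2)
        linarith
      have hk0 : 0 ≤ |y ^ 2 * (4 * u ^ 2 / 9 - v / 3)| := abs_nonneg _
      generalize |y ^ 2 * (4 * u ^ 2 / 9 - v / 3)| = k at hv3 hk0 ⊢
      have hu3 : y ^ 2 * |u| ≤ (y ^ 2 + y ^ 2 * u ^ 2) / 2 := by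
        have h4 : |u| ≤ (1 + u ^ 2) / 2 := by
          nlinarith [sq_nonneg (|u| - 1), sq_abs u]
        have h5 := mul_le_mul_of_nonneg_left h4 (by positivity : 0 ≤ y ^ 2)
        linarith
      have hk : 0 ≤ y ^ 2 * |v| := by positivity
      have hsum : y ^ 2 * (|v| + u ^ 2 + |u| + 1) ≤
          108 * (k + (y * u / 6) ^ 2 + y ^ 2) := by
        have hyu : 0 ≤ y ^ 2 * u ^ 2 := by positivity
        have hyy : 0 ≤ y ^ 2 := by positivity
        have e1 : (y * u / 6) ^ 2 = y ^ 2 * u ^ 2 / 36 := by ring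
        rw [e1]
        linarith
      calc y ^ 2 * |E| ≤ y ^ 2 * (|M| * (w t ^ 3 * (|v| + u ^ 2 + |u| + 1))) :=
            mul_le_mul_of_nonneg_left hD' (by positivity)
        _ = |M| * w t ^ 3 * (y ^ 2 * (|v| + u ^ 2 + |u| + 1)) := by ring
        _ ≤ |M| * w t ^ 3 * (108 * (k + (y * u / 6) ^ 2 + y ^ 2)) :=
            mul_le_mul_of_nonneg_left hsum (by positivity)
        _ = 4 * |M| * (k + (y * u / 6) ^ 2 + y ^ 2) * (27 * w t ^ 3) := by ring
    · have h := (hw.continuous.tendsto 0).rpow_const (p := (1 / 6 : ℝ)) (Or.inr (by norm_num))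
      rw [hw0, Real.zero_rpow (by norm_num)] at h
      exact h.mono_left nhdsWithin_le_nhds
  · intro t ht ht'
    have hp := hwpos t ht ht'
    simp only
    rw [← Real.rpow_natCast, ← Real.rpow_mul hp.le]
    norm_num

end H787GX
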